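import Pool.Agent.Helper65.LG.Defs

set_option autoImplicit false

open Finset

namespace Pool.Agent.Helper18.LG

open Pool.Agent.Helper65.LG

/-- a factor is positive -/
theorem factor_pos (G : GMap) {i : ℕ} (hi : i < G.d) : 0 < |(G.m i : ℝ)| / G.d := by
  have h1 : (G.m i : ℝ) ≠ 0 := by exact_mod_cast G.hm i hi
  have h2 : (0 : ℝ) < G.d := by
    have := G.hd
    exact_mod_cast (by omega : 0 < G.d)
  exact div_pos (abs_pos.2 h1) h2

/-- the product of the multipliers, and its logarithm -/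
theorem prod_log (G : GMap) (C : Finset (ℕ × ℕ)) (ρ : ℕ × ℕ → ℝ) :
    0 < ∏ i ∈ range G.d, (|(G.m i : ℝ)| / G.d) ^ (∑ B ∈ C with B.1 % G.d = i, ρ B) ∧
    Real.log (∏ i ∈ range G.d, (|(G.m i : ℝ)| / G.d) ^ (∑ B ∈ C with B.1 % G.d = i, ρ B)) =
      mean C ρ (f1 G) := by
  have hpos : ∀ i ∈ range G.d, 0 < (|(G.m i : ℝ)| / G.d) ^ (∑ B ∈ C with B.1 % G.d = i, ρ B) :=
    fun i hi => Real.rpow_pos_of_pos (factor_pos G (mem_range.1 hi)) _
  refine ⟨Finset.prod_pos hpos, ?_⟩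
  rw [Real.log_prod fun i hi => (hpos i hi).ne']
  have hmaps : ∀ B ∈ C, B.1 % G.d ∈ range G.d := fun B _ =>
    mem_range.2 (Nat.mod_lt _ (by have := G.hd; omega))
  unfold mean
  rw [← Finset.sum_fiberwise_of_maps_to hmaps]
  refine Finset.sum_congr rfl fun i hi => ?_
  rw [Real.log_rpow (factor_pos G (mem_range.1 hi)), Finset.sum_mul]
  refine Finset.sum_congr rfl fun B hB => ?_
  rw [mem_filter] at hB
  unfold f1
  rw [hB.2]

/-- the product of the multipliers is less than one exactly if the mean is negative -/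
theorem prod_lt_one (G : GMap) (C : Finset (ℕ × ℕ)) (ρ : ℕ × ℕ → ℝ) :
    ∏ i ∈ range G.d, (|(G.m i : ℝ)| / G.d) ^ (∑ B ∈ C with B.1 % G.d = i, ρ B) < 1 ↔
      mean C ρ (f1 G) < 0 := by
  obtain ⟨h1, h2⟩ := prod_log G C ρ
  rw [← h2, Real.log_neg_iff h1]

/-- the product of the multipliers is greater than one exactly if the mean is positive -/
theorem one_lt_prod (G : GMap) (C : Finset (ℕ × ℕ)) (ρ : ℕ × ℕ → ℝ) :
    1 < ∏ i ∈ range G.d, (|(G.m i : ℝ)| / G.d) ^ (∑ B ∈ C with B.1 % G.d = i, ρ B) ↔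
      0 < mean C ρ (f1 G) := by
  obtain ⟨h1, h2⟩ := prod_log G C ρ
  rw [← h2, Real.log_pos_iff h1.le]

/-- the exponents are nonnegative and add up to one -/
theorem exponents (G : GMap) (C : Finset (ℕ × ℕ)) (ρ : ℕ × ℕ → ℝ) (hρ : IsStat G C ρ) :
    (∀ i, 0 ≤ ∑ B ∈ C with B.1 % G.d = i, ρ B) ∧
      ∑ i ∈ range G.d, ∑ B ∈ C with B.1 % G.d = i, ρ B = 1 := by
  refine ⟨fun i => Finset.sum_nonneg fun B hB => hρ.nonneg B (mem_filter.1 hB).1, ?_⟩
  have hmaps : ∀ B ∈ C, B.1 % G.d ∈ range G.d := fun B _ =>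
    mem_range.2 (Nat.mod_lt _ (by have := G.hd; omega))
  rw [Finset.sum_fiberwise_of_maps_to hmaps, hρ.sum]

end Pool.Agent.Helper18.LG
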